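import Mathlib
import Pool.Agent.KS6_40.SA.Main

set_option autoImplicit false

/-! # Planar semi-algebraic Ramsey numbers `R_f(3, n)`: exponent `3/2`

There is one fixed polynomial `f` in four variables, of degree `8`, such that
`R_f(3, n) ≥ c (n / log n) ^ (3/2)` for all `n ≥ 2`, with a constant `c > 0`; in particular
`R_f(3, n) > n ^ (1 + ε)` for every `ε < 1/2` and all large `n`.

The graph: the vertices are the subsets of `{0, ..., 4m - 1}`, `s` and `t` are adjacent if their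
largest difference exceeds their smallest difference by exactly `2m`.  It has `16 ^ m` vertices, no
triangles, and no independent set of more than `8 ^ m` vertices.  New here: every set `U` of more than
`2 * 8 ^ m` vertices has a vertex with at least `|U| / (4 m 4 ^ m)` neighbours in `U`; so there are few
independent sets of size about `m ^ 3 4 ^ m`, and a suitable part of the vertices, of proportion about
`m ^ 3 / 2 ^ m`, contains none of them. -/

namespace Pool.Agent.Results.MP_8f4311_co.ThreeHalves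

/-- Value `f(x, y)` of a real polynomial in four variables at two points of the plane. -/
noncomputable def polyVal (f : MvPolynomial (Fin 4) ℝ) (x y : ℝ × ℝ) : ℝ :=
  MvPolynomial.eval ![x.1, x.2, y.1, y.2] f

/-- The semi-algebraic graph of the points `v 0, v 1, ...`: for `i < j` the pair `i, j` is an edge
iff `f (v i, v j) ≥ 0`. -/
def semiGraph (f : MvPolynomial (Fin 4) ℝ) {N : ℕ} (v : Fin N → ℝ × ℝ) : SimpleGraph (Fin N) where
  Adj i j := (i < j ∧ 0 ≤ polyVal f (v i) (v j)) ∨ (j < i ∧ 0 ≤ polyVal f (v j) (v i))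
  symm := ⟨fun i j h => by tauto⟩
  loopless := ⟨fun i h => by
    rcases h with h | h <;> exact lt_irrefl _ h.1⟩

/-- The Ramsey number `R_f(s, n)` of the problem: the least `N` such that for all `N` distinct
points of the plane the graph has a clique of size `s` or an independent set of size `n`. -/
noncomputable def semiRamsey (f : MvPolynomial (Fin 4) ℝ) (s n : ℕ) : ℕ :=
  sInf {N : ℕ | ∀ v : Fin N → ℝ × ℝ, Function.Injective v →
    (∃ t : Finset (Fin N), (semiGraph f v).IsNClique s t) ∨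
    (∃ t : Finset (Fin N), (semiGraph f v).IsNIndepSet n t)}

theorem semiRamsey_eq (f : MvPolynomial (Fin 4) ℝ) (s n : ℕ) :
    semiRamsey f s n = PlanarRamsey.semiRamsey f s n := rfl

theorem result : ∃ f : MvPolynomial (Fin 4) ℝ,
    (∃ c : ℝ, 0 < c ∧ ∀ n : ℕ, 2 ≤ n →
      c * ((n : ℝ) ^ (3 / 2 : ℝ) / (Real.log n) ^ (3 / 2 : ℝ)) ≤ (semiRamsey f 3 n : ℝ)) ∧
    ∀ ε : ℝ, ε < 1 / 2 → ∃ n₀ : ℕ, ∀ n : ℕ, n₀ ≤ n → (n : ℝ) ^ (1 + ε) < (semiRamsey f 3 n : ℝ) := by
  have h1 : ∃ c : ℝ, 0 < c ∧ ∀ n : ℕ, 2 ≤ n →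
      c * ((n : ℝ) ^ (3 / 2 : ℝ) / (Real.log n) ^ (3 / 2 : ℝ)) ≤
        (semiRamsey PlanarRamsey.ff 3 n : ℝ) := by
    obtain ⟨B, hB⟩ : ∃ B, B = Pool.Agent.KS6_40.SA.MM 17 := ⟨_, rfl⟩
    have hl2 : 0 < Real.log 2 := Real.log_pos (by norm_num)
    have hc1 : 0 < (Real.log 2) ^ (3 / 2 : ℝ) / ((B : ℝ) + 1) ^ (3 / 2 : ℝ) := by positivity
    refine ⟨min (1 / 40000) ((Real.log 2) ^ (3 / 2 : ℝ) / ((B : ℝ) + 1) ^ (3 / 2 : ℝ)),
      lt_min (by norm_num) hc1, fun n hn => ?_⟩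
    have hnr : (2 : ℝ) ≤ n := by exact_mod_cast hn
    have hL : Real.log 2 ≤ Real.log n := Real.log_le_log (by norm_num) hnr
    have hq : 0 ≤ (n : ℝ) ^ (3 / 2 : ℝ) / (Real.log n) ^ (3 / 2 : ℝ) := by
      have : 0 ≤ Real.log n := by linarith
      positivity
    rcases le_or_gt B n with h | h
    · have h2 := Pool.Agent.KS6_40.SA.main_bound n (by rw [← hB]; exact h)
      rw [semiRamsey_eq]
      exact (mul_le_mul_of_nonneg_right (min_le_left _ _) hq).trans h2
    · have h2 := PlanarRamsey.lower_bound n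
      have h3 : (1 : ℝ) ≤ (semiRamsey PlanarRamsey.ff 3 n : ℝ) := by
        rw [semiRamsey_eq]
        have h4 : 0 < (n : ℝ) ^ (4 / 3 : ℝ) := by positivity
        have h5 : (0 : ℝ) < (PlanarRamsey.semiRamsey PlanarRamsey.ff 3 n : ℝ) := by linarith
        have h6 : 0 < PlanarRamsey.semiRamsey PlanarRamsey.ff 3 n := by exact_mod_cast h5
        exact_mod_cast h6
      refine le_trans ?_ h3
      refine (mul_le_mul_of_nonneg_right (min_le_right _ _) hq).trans ?_
      have h7 : (n : ℝ) ^ (3 / 2 : ℝ) ≤ ((B : ℝ) + 1) ^ (3 / 2 : ℝ) := by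
        apply Real.rpow_le_rpow (by positivity) _ (by norm_num)
        have : (n : ℝ) ≤ B := by exact_mod_cast h.le
        linarith
      have h8 : (Real.log 2) ^ (3 / 2 : ℝ) ≤ (Real.log n) ^ (3 / 2 : ℝ) :=
        Real.rpow_le_rpow hl2.le hL (by norm_num)
      have h9 : 0 < (Real.log n) ^ (3 / 2 : ℝ) := Real.rpow_pos_of_pos (by linarith) _
      have h10 : (0 : ℝ) < ((B : ℝ) + 1) ^ (3 / 2 : ℝ) := by positivity
      rw [div_mul_div_comm, div_le_one (by positivity)]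
      calc (Real.log 2) ^ (3 / 2 : ℝ) * (n : ℝ) ^ (3 / 2 : ℝ)
          ≤ (Real.log n) ^ (3 / 2 : ℝ) * ((B : ℝ) + 1) ^ (3 / 2 : ℝ) :=
            mul_le_mul h8 h7 (by positivity) h9.le
        _ = _ := mul_comm _ _
  refine ⟨PlanarRamsey.ff, h1, fun ε hε => ?_⟩
  obtain ⟨c, hc, hmain⟩ := h1
  have hδ : 0 < 1 / 2 - ε := by linarith
  have hlo := (isLittleO_log_rpow_rpow_atTop (3 / 2 : ℝ) hδ).def (show 0 < c / 2 by positivity)
  have hlo' := tendsto_natCast_atTop_atTop (R := ℝ) |>.eventually hlo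
  obtain ⟨n₁, hn₁⟩ := Filter.eventually_atTop.1 hlo'
  refine ⟨max n₁ 2, fun n hn => ?_⟩
  have hn1 := hn₁ n ((le_max_left _ _).trans hn)
  have hn2 : 2 ≤ n := (le_max_right _ _).trans hn
  have hnr : (2 : ℝ) ≤ n := by exact_mod_cast hn2
  have hnpos : (0 : ℝ) < n := by linarith
  have hL : 0 < Real.log n := Real.log_pos (by linarith)
  have hLp : 0 < (Real.log n) ^ (3 / 2 : ℝ) := Real.rpow_pos_of_pos hL _
  have hnp : 0 < (n : ℝ) ^ (1 / 2 - ε) := Real.rpow_pos_of_pos hnpos _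
  rw [Real.norm_of_nonneg hLp.le, Real.norm_of_nonneg hnp.le] at hn1
  refine lt_of_lt_of_le ?_ (hmain n hn2)
  rw [mul_div_assoc', lt_div_iff₀ hLp]
  have h2 : (n : ℝ) ^ (3 / 2 : ℝ) = (n : ℝ) ^ (1 + ε) * (n : ℝ) ^ (1 / 2 - ε) := by
    rw [← Real.rpow_add hnpos]
    congr 1
    ring
  have h3 : 0 < (n : ℝ) ^ (1 + ε) := Real.rpow_pos_of_pos hnpos _
  calc (n : ℝ) ^ (1 + ε) * (Real.log n) ^ (3 / 2 : ℝ)
      ≤ (n : ℝ) ^ (1 + ε) * (c / 2 * (n : ℝ) ^ (1 / 2 - ε)) :=
        mul_le_mul_of_nonneg_left hn1 h3.le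
    _ = c / 2 * (n : ℝ) ^ (3 / 2 : ℝ) := by rw [h2]; ring
    _ < c * (n : ℝ) ^ (3 / 2 : ℝ) := by
        have : 0 < (n : ℝ) ^ (3 / 2 : ℝ) := Real.rpow_pos_of_pos hnpos _
        nlinarith

end Pool.Agent.Results.MP_8f4311_co.ThreeHalves
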